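import Mathlib
import Pool.Agent.Helper1.BalanceDefs
import Pool.Agent.BFT.Final

/-!
# A lower bound for all minimal balance constants, beyond `(5 - √5) / 10`
-/

set_option autoImplicit false

namespace Pool.Agent.Results.MP_c890a7_co.BeyondBFT

open Pool.Agent.Helper1.Balance

/-- There is an absolute `ε > 0` such that every finite poset that is not a chain has balance
constant at least `(5 - √5) / 10 + ε`; in terms of the minimal balance constants: `δ_w` is at
least `(5 - √5) / 10 + ε` for every `w ≥ 2`. The constant `(5 - √5) / 10 = 0.2763...` is the bound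
of Brightwell, Felsner and Trotter (1995); it is attained by an infinite locally finite poset. -/
theorem result : ∃ ε : ℝ, 0 < ε ∧
    (∀ (n : ℕ) (r : Fin n → Fin n → Prop), IsPoset r → (∃ x y : Fin n, ¬ r x y ∧ ¬ r y x) →
      (5 - Real.sqrt 5) / 10 + ε ≤ balance r) ∧
    (∀ w : ℕ, 2 ≤ w → (5 - Real.sqrt 5) / 10 + ε ≤ deltaW w) :=
  Pool.Agent.BFT.main

end Pool.Agent.Results.MP_c890a7_co.BeyondBFT
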